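import Mathlib

open MeasureTheory Set Filter Topology
open scoped RealInnerProductSpace ContDiff

namespace Pool.Agent.Results.MP_1048c2_an.Disproof

/-- Data of a group of Heisenberg type. The horizontal layer is `EuclideanSpace ℝ (Fin m)`, the
centre is `EuclideanSpace ℝ (Fin k)`; `bracket z z'` is `[z, z']` (all other brackets vanish). The
bracket is linear in the first variable and alternating, hence bilinear; `inner_J` determines `J`
and shows that it is bilinear. -/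
structure HType (m k : ℕ) where
  bracket : EuclideanSpace ℝ (Fin m) → EuclideanSpace ℝ (Fin m) → EuclideanSpace ℝ (Fin k)
  bracket_add : ∀ z z' w, bracket (z + z') w = bracket z w + bracket z' w
  bracket_smul : ∀ (c : ℝ) z w, bracket (c • z) w = c • bracket z w
  bracket_self : ∀ z, bracket z z = 0
  J : EuclideanSpace ℝ (Fin k) → EuclideanSpace ℝ (Fin m) → EuclideanSpace ℝ (Fin m)
  inner_J : ∀ σ z z', ⟪J σ z, z'⟫ = ⟪σ, bracket z z'⟫
  J_sq : ∀ σ z, J σ (J σ z) = -((‖σ‖ ^ 2) • z)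
  span_bracket : ∀ w, w ∈ Submodule.span ℝ {w | ∃ z z', bracket z z' = w}

variable {m k : ℕ}

/-- The group in exponential coordinates `x = exp (z + σ)`, `x = (z, σ)`. -/
abbrev Pt (m k : ℕ) : Type := EuclideanSpace ℝ (Fin m) × EuclideanSpace ℝ (Fin k)

/-- The left invariant horizontal field
`X_i = ∂_{z_i} + (1/2) ∑ ℓ, ⟪e_i, J(ε_ℓ) z⟫ ∂_{σ_ℓ}`, as a vector at the point `x = (z, σ)`. -/
noncomputable def X (G : HType m k) (i : Fin m) (x : Pt m k) : Pt m k :=
  (EuclideanSpace.single i 1,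
    WithLp.toLp 2 fun l => 1 / 2 * ⟪EuclideanSpace.single i (1 : ℝ),
      G.J (EuclideanSpace.single l 1) x.1⟫)

/-- The derivative of `f` at the point `x` in the direction `y`. -/
noncomputable def dirDeriv (f : Pt m k → ℝ) (x y : Pt m k) : ℝ := fderiv ℝ f x y

/-- The horizontal gradient `∇_H f = (X_1 f, …, X_m f)`. -/
noncomputable def hgrad (G : HType m k) (f : Pt m k → ℝ) (x : Pt m k) :
    EuclideanSpace ℝ (Fin m) :=
  WithLp.toLp 2 fun i => dirDeriv f x (X G i x)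

/-- `φ` is a test function on the open set `U`, i.e. `φ ∈ C_c^∞(U)`. -/
def IsTestOn (U : Set (Pt m k)) (φ : Pt m k → ℝ) : Prop :=
  ContDiff ℝ ∞ φ ∧ HasCompactSupport φ ∧ tsupport φ ⊆ U

/-- `Δ_{H,p} f = 0` weakly on the open set `U`:
`∫_U |∇_H f|^{p-2} ⟪∇_H f, ∇_H φ⟫ = 0` for every `φ ∈ C_c^∞(U)`. -/
def IsWeaklyPHarmonicOn (G : HType m k) (p : ℝ) (U : Set (Pt m k)) (f : Pt m k → ℝ) : Prop :=
  ∀ φ : Pt m k → ℝ, IsTestOn U φ →
    ∫ x in U, ‖hgrad G f x‖ ^ (p - 2) * ⟪hgrad G f x, hgrad G φ x⟫ = 0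

/-- `f` is a (smooth) capacitary potential of `Ω`: it is continuous on the complement of `Ω`, and
`C^∞` and weakly `p`-harmonic outside the closure of `Ω`; it equals `1` on the boundary of `Ω` and
tends to `0` at infinity. -/
def IsCapacitaryPotential (G : HType m k) (p : ℝ) (Ω : Set (Pt m k)) (f : Pt m k → ℝ) : Prop :=
  ContinuousOn f Ωᶜ ∧ ContDiffOn ℝ ∞ f (closure Ω)ᶜ ∧ IsWeaklyPHarmonicOn G p (closure Ω)ᶜ f ∧
    (∀ x ∈ frontier Ω, f x = 1) ∧ Tendsto f (cocompact (Pt m k)) (𝓝 0)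

/-- The homogeneous dimension `Q = m + 2k`. -/
def homDim (m k : ℕ) : ℝ := m + 2 * k

/-- The function `P = |∇_H f|^p / f^{p(Q+p-2)/(Q-p)}`. -/
noncomputable def P (G : HType m k) (p : ℝ) (f : Pt m k → ℝ) (x : Pt m k) : ℝ :=
  ‖hgrad G f x‖ ^ p / f x ^ (p * (homDim m k + p - 2) / (homDim m k - p))

/-- The constant `c_R = (Q-p)/(p-1) · 1/R^2`. -/
noncomputable def cst (m k : ℕ) (p R : ℝ) : ℝ := (homDim m k - p) / (p - 1) * (1 / R ^ 2)

/-- The gauge ball `B_R(0, σ₀) = {(z, σ) : |z|^4 + 16 |σ - σ₀|^2 < R^4}`. -/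
def gaugeBall (m k : ℕ) (R : ℝ) (σ₀ : EuclideanSpace ℝ (Fin k)) : Set (Pt m k) :=
  {x | ‖x.1‖ ^ 4 + 16 * ‖x.2 - σ₀‖ ^ 2 < R ^ 4}

/-- `Ω` has a smooth boundary: it is the sublevel set `{ρ < 0}` of a smooth function `ρ` whose
differential does not vanish at any point of the zero level. -/
def HasSmoothBoundary (Ω : Set (Pt m k)) : Prop :=
  ∃ ρ : Pt m k → ℝ, ContDiff ℝ ∞ ρ ∧ Ω = {x | ρ x < 0} ∧
    ∀ x, ρ x = 0 → ∃ y, dirDeriv ρ x y ≠ 0

/-- The statement asked about fails in the group `G` for the exponent `p` and the radius `R`: some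
connected bounded open `Ω` (with smooth boundary) which is not a gauge ball of any radius centred
on the centre has a capacitary potential with `P = c_R^p |z|^p` outside the closure of `Ω`. -/
def FailsFor (G : HType m k) (p R : ℝ) : Prop :=
  ∃ (Ω : Set (Pt m k)) (f : Pt m k → ℝ),
    IsOpen Ω ∧ IsConnected Ω ∧ Bornology.IsBounded Ω ∧ HasSmoothBoundary Ω ∧
    IsCapacitaryPotential G p Ω f ∧
    (∀ x ∉ closure Ω, P G p f x = cst m k p R ^ p * ‖x.1‖ ^ p) ∧
    ¬ ∃ (R' : ℝ) (σ₀ : EuclideanSpace ℝ (Fin k)), Ω = gaugeBall m k R' σ₀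

/-- `S` is a traceless symmetric involution of the horizontal layer commuting with all `J σ`
(a symmetric map is automatically linear). -/
structure Splitting (G : HType m k)
    (S : EuclideanSpace ℝ (Fin m) → EuclideanSpace ℝ (Fin m)) : Prop where
  symm : ∀ z w, ⟪S z, w⟫ = ⟪z, S w⟫
  sq : ∀ z, S (S z) = z
  comm : ∀ σ z, S (G.J σ z) = G.J σ (S z)
  trace : ∑ i : Fin m, S (EuclideanSpace.single i 1) i = 0

/-! ### Proof -/

/-! ### Linear maps attached to the data -/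

lemma bracket_add_right (G : HType m k) (z a b : EuclideanSpace ℝ (Fin m)) :
    G.bracket z (a + b) = G.bracket z a + G.bracket z b := by
  refine ext_inner_left ℝ fun σ => ?_
  rw [← G.inner_J, inner_add_right, inner_add_right, G.inner_J, G.inner_J]

lemma bracket_smul_right (G : HType m k) (c : ℝ) (z a : EuclideanSpace ℝ (Fin m)) :
    G.bracket z (c • a) = c • G.bracket z a := by
  refine ext_inner_left ℝ fun σ => ?_
  rw [← G.inner_J, inner_smul_right, inner_smul_right, G.inner_J]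

/-- the bracket as a bilinear map -/
noncomputable def bl (G : HType m k) : EuclideanSpace ℝ (Fin m) →ₗ[ℝ]
    EuclideanSpace ℝ (Fin m) →ₗ[ℝ] EuclideanSpace ℝ (Fin k) :=
  LinearMap.mk₂ ℝ G.bracket G.bracket_add G.bracket_smul (bracket_add_right G)
    (fun c z a => bracket_smul_right G c z a)

lemma bl_apply (G : HType m k) (z w : EuclideanSpace ℝ (Fin m)) : bl G z w = G.bracket z w := rfl

/-- `J` as a bilinear map -/
noncomputable def jl (G : HType m k) : EuclideanSpace ℝ (Fin k) →ₗ[ℝ]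
    EuclideanSpace ℝ (Fin m) →ₗ[ℝ] EuclideanSpace ℝ (Fin m) :=
  LinearMap.mk₂ ℝ G.J
    (fun σ τ z => ext_inner_right ℝ fun w => by
      rw [G.inner_J, inner_add_left, inner_add_left, G.inner_J, G.inner_J])
    (fun c σ z => ext_inner_right ℝ fun w => by
      rw [G.inner_J, inner_smul_left, inner_smul_left, G.inner_J])
    (fun σ z w => ext_inner_right ℝ fun w => by
      rw [G.inner_J, G.bracket_add, inner_add_right, inner_add_left, G.inner_J, G.inner_J])
    (fun c σ z => ext_inner_right ℝ fun w => by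
      rw [G.inner_J, G.bracket_smul, inner_smul_right, inner_smul_left, G.inner_J]; simp)

lemma jl_apply (G : HType m k) (σ : EuclideanSpace ℝ (Fin k)) (w : EuclideanSpace ℝ (Fin m)) :
    jl G σ w = G.J σ w := rfl

lemma bl_self (G : HType m k) (z : EuclideanSpace ℝ (Fin m)) : bl G z z = 0 := G.bracket_self z

lemma inner_jl (G : HType m k) (σ : EuclideanSpace ℝ (Fin k))
    (z z' : EuclideanSpace ℝ (Fin m)) : ⟪jl G σ z, z'⟫ = ⟪σ, bl G z z'⟫ := G.inner_J σ z z'

lemma jl_sq (G : HType m k) (σ : EuclideanSpace ℝ (Fin k)) (z : EuclideanSpace ℝ (Fin m)) :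
    jl G σ (jl G σ z) = -((‖σ‖ ^ 2) • z) := G.J_sq σ z

/-- linear version of `Splitting` -/
structure SplittingL (G : HType m k)
    (S : EuclideanSpace ℝ (Fin m) →L[ℝ] EuclideanSpace ℝ (Fin m)) : Prop where
  symm : ∀ z w, ⟪S z, w⟫ = ⟪z, S w⟫
  sq : ∀ z, S (S z) = z
  comm : ∀ σ z, S (jl G σ z) = jl G σ (S z)
  trace : ∑ i : Fin m, ⟪S (EuclideanSpace.single i 1), EuclideanSpace.single i (1 : ℝ)⟫ = 0

lemma Splitting.toL {G : HType m k} {S : EuclideanSpace ℝ (Fin m) → EuclideanSpace ℝ (Fin m)}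
    (h : Splitting G S) : ∃ T, SplittingL G T := by
  have hadd : ∀ a b, S (a + b) = S a + S b := fun a b => ext_inner_right ℝ fun w => by
    rw [h.symm, inner_add_left, inner_add_left, h.symm, h.symm]
  have hsmul : ∀ (c : ℝ) a, S (c • a) = c • S a := fun c a => ext_inner_right ℝ fun w => by
    rw [h.symm, inner_smul_left, inner_smul_left, h.symm]
  refine ⟨LinearMap.toContinuousLinearMap
    { toFun := S, map_add' := hadd, map_smul' := hsmul }, h.symm, h.sq, h.comm, ?_⟩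
  have := h.trace
  rw [← this]
  refine Finset.sum_congr rfl fun i _ => ?_
  rw [EuclideanSpace.inner_single_right]
  simp




/-- basis vectors -/
noncomputable def bv {n : ℕ} (i : Fin n) : EuclideanSpace ℝ (Fin n) := EuclideanSpace.single i 1

lemma inner_bv_left {n : ℕ} (i : Fin n) (z : EuclideanSpace ℝ (Fin n)) : ⟪bv i, z⟫ = z i := by
  simp [bv, EuclideanSpace.inner_single_left]

lemma inner_bv_right {n : ℕ} (i : Fin n) (z : EuclideanSpace ℝ (Fin n)) : ⟪z, bv i⟫ = z i := by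
  rw [real_inner_comm, inner_bv_left]

lemma sum_coord_smul {n : ℕ} (z : EuclideanSpace ℝ (Fin n)) : ∑ l, z l • bv l = z := by
  ext j
  simp [bv, Pi.single_apply]

lemma norm_sq_eq_sum {n : ℕ} (z : EuclideanSpace ℝ (Fin n)) : ‖z‖ ^ 2 = ∑ i, z i ^ 2 := by
  rw [EuclideanSpace.real_norm_sq_eq]

lemma X_eq (G : HType m k) (i : Fin m) (x : Pt m k) :
    X G i x = (bv i, (1 / 2 : ℝ) • bl G x.1 (bv i)) := by
  unfold X
  congr 1
  have : ∀ l : Fin k, ⟪EuclideanSpace.single i (1 : ℝ), G.J (EuclideanSpace.single l 1) x.1⟫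
      = (bl G x.1 (bv i)) l := by
    intro l
    rw [real_inner_comm, ← jl_apply, inner_jl G, ← bv, ← bv, inner_bv_left]
  simp only [this]
  ext j
  simp

lemma J_skew (G : HType m k) (σ : EuclideanSpace ℝ (Fin k)) (z : EuclideanSpace ℝ (Fin m)) :
    ⟪jl G σ z, z⟫ = 0 := by
  rw [inner_jl G, bl_self G, inner_zero_right]

lemma bracket_skew (G : HType m k) (z w : EuclideanSpace ℝ (Fin m)) :
    bl G z w = - bl G w z := by
  have h := bl_self G (z + w)
  simp only [map_add, LinearMap.add_apply, bl_self G, zero_add, add_zero] at h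
  first
    | exact eq_neg_of_add_eq_zero_left h
    | exact eq_neg_of_add_eq_zero_right h

lemma J_skew' (G : HType m k) (σ : EuclideanSpace ℝ (Fin k)) (z w : EuclideanSpace ℝ (Fin m)) :
    ⟪jl G σ z, w⟫ = - ⟪z, jl G σ w⟫ := by
  rw [inner_jl G, bracket_skew, inner_neg_right, ← inner_jl G, real_inner_comm]

lemma norm_J_sq (G : HType m k) (σ : EuclideanSpace ℝ (Fin k)) (z : EuclideanSpace ℝ (Fin m)) :
    ‖jl G σ z‖ ^ 2 = ‖σ‖ ^ 2 * ‖z‖ ^ 2 := by
  rw [← real_inner_self_eq_norm_sq, J_skew', jl_sq G, inner_neg_right, neg_neg,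
    inner_smul_right, real_inner_self_eq_norm_sq]

lemma sum_bracket_sq (G : HType m k) (z : EuclideanSpace ℝ (Fin m)) :
    ∑ i : Fin m, ‖bl G z (bv i)‖ ^ 2 = k * ‖z‖ ^ 2 := by
  have h1 : ∀ i : Fin m, ‖bl G z (bv i)‖ ^ 2 = ∑ l : Fin k, (jl G (bv l) z) i ^ 2 := by
    intro i
    rw [norm_sq_eq_sum]
    refine Finset.sum_congr rfl fun l _ => ?_
    rw [← inner_bv_left l (bl G z (bv i)), ← inner_jl G, inner_bv_right]
  simp only [h1]
  rw [Finset.sum_comm]
  have h2 : ∀ l : Fin k, ∑ i : Fin m, (jl G (bv l) z) i ^ 2 = ‖z‖ ^ 2 := by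
    intro l
    rw [← norm_sq_eq_sum, norm_J_sq]
    simp [bv]
  simp [h2]



/-- The polynomial `v = |z|^4 + 2 s ⟪S z, z⟫ + s^2 + 16 |σ|^2`. -/
noncomputable def vfun (S : EuclideanSpace ℝ (Fin m) →L[ℝ] EuclideanSpace ℝ (Fin m)) (s : ℝ)
    (x : Pt m k) : ℝ :=
  ‖x.1‖ ^ 4 + 2 * s * ⟪S x.1, x.1⟫ + s ^ 2 + 16 * ‖x.2‖ ^ 2

/-- `z ↦ [z, e_i]` as a continuous linear map. -/
noncomputable def Bc (G : HType m k) (i : Fin m) :
    EuclideanSpace ℝ (Fin m) →L[ℝ] EuclideanSpace ℝ (Fin k) :=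
  LinearMap.toContinuousLinearMap ((bl G).flip (bv i))

lemma Bc_apply (G : HType m k) (i : Fin m) (z : EuclideanSpace ℝ (Fin m)) :
    Bc G i z = bl G z (bv i) := by
  simp [Bc]

lemma vfun_eq (S : EuclideanSpace ℝ (Fin m) →L[ℝ] EuclideanSpace ℝ (Fin m)) (s : ℝ) :
    (vfun S s : Pt m k → ℝ) = fun x => ⟪x.1, x.1⟫ ^ 2 + 2 * s * ⟪S x.1, x.1⟫ + s ^ 2
      + 16 * ⟪x.2, x.2⟫ := by
  ext x
  simp only [vfun, real_inner_self_eq_norm_sq]
  ring

lemma contDiff_vfun (S : EuclideanSpace ℝ (Fin m) →L[ℝ] EuclideanSpace ℝ (Fin m)) (s : ℝ) :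
    ContDiff ℝ ∞ (vfun S s : Pt m k → ℝ) := by
  rw [vfun_eq]
  have h1 : ContDiff ℝ ∞ (fun x : Pt m k => x.1) := contDiff_fst
  have h2 : ContDiff ℝ ∞ (fun x : Pt m k => x.2) := contDiff_snd
  have h3 : ContDiff ℝ ∞ (fun x : Pt m k => S x.1) := S.contDiff.comp h1
  exact ((((h1.inner ℝ h1).pow 2).add (contDiff_const.mul (h3.inner ℝ h1))).add
    contDiff_const).add (contDiff_const.mul (h2.inner ℝ h2))

lemma fderiv_vfun (S : EuclideanSpace ℝ (Fin m) →L[ℝ] EuclideanSpace ℝ (Fin m)) (s : ℝ)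
    (hS : ∀ z w, ⟪S z, w⟫ = ⟪z, S w⟫) (x y : Pt m k) :
    fderiv ℝ (vfun S s) x y = 4 * ‖x.1‖ ^ 2 * ⟪x.1, y.1⟫ + 4 * s * ⟪S x.1, y.1⟫
      + 32 * ⟪x.2, y.2⟫ := by
  have h1 : HasFDerivAt (fun x : Pt m k => x.1) (ContinuousLinearMap.fst ℝ _ _) x :=
    hasFDerivAt_fst
  have h2 : HasFDerivAt (fun x : Pt m k => x.2) (ContinuousLinearMap.snd ℝ _ _) x :=
    hasFDerivAt_snd
  have h3 : HasFDerivAt (fun x : Pt m k => S x.1) (S.comp (ContinuousLinearMap.fst ℝ _ _)) x :=
    S.hasFDerivAt.comp x h1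
  have h := (((h1.inner ℝ h1).pow 2).add ((h3.inner ℝ h1).const_mul (2 * s))).add_const (s ^ 2)
    |>.add ((h2.inner ℝ h2).const_mul 16)
  rw [vfun_eq]
  rw [HasFDerivAt.fderiv (f := fun x : Pt m k => ⟪x.1, x.1⟫ ^ 2 + 2 * s * ⟪S x.1, x.1⟫ + s ^ 2
      + 16 * ⟪x.2, x.2⟫) h]
  simp [fderivInnerCLM_apply]
  rw [real_inner_comm x.1 y.1, real_inner_comm x.2 y.2, hS y.1 x.1, real_inner_comm (S x.1) y.1]
  ring

/-- the component `X_i v` -/
noncomputable def gfun (G : HType m k)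
    (S : EuclideanSpace ℝ (Fin m) →L[ℝ] EuclideanSpace ℝ (Fin m)) (s : ℝ) (i : Fin m)
    (x : Pt m k) : ℝ :=
  4 * ⟪x.1, x.1⟫ * ⟪x.1, bv i⟫ + 4 * s * ⟪S x.1, bv i⟫ + 16 * ⟪x.2, Bc G i x.1⟫

lemma fderiv_vfun_X (G : HType m k) (S : EuclideanSpace ℝ (Fin m) →L[ℝ] EuclideanSpace ℝ (Fin m))
    (s : ℝ) (hS : ∀ z w, ⟪S z, w⟫ = ⟪z, S w⟫) (i : Fin m) (x : Pt m k) :
    fderiv ℝ (vfun S s) x (X G i x) = gfun G S s i x := by
  rw [fderiv_vfun S s hS, X_eq, gfun, real_inner_self_eq_norm_sq, Bc_apply]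
  simp only [inner_smul_right]
  ring

lemma gfun_eq (G : HType m k) (S : EuclideanSpace ℝ (Fin m) →L[ℝ] EuclideanSpace ℝ (Fin m))
    (s : ℝ) (i : Fin m) (x : Pt m k) :
    gfun G S s i x = (4 * ‖x.1‖ ^ 2) * x.1 i + 4 * s * (S x.1) i + 16 * (jl G x.2 x.1) i := by
  rw [gfun, real_inner_self_eq_norm_sq, Bc_apply, ← inner_jl G, inner_bv_right, inner_bv_right,
    inner_bv_right]

lemma contDiff_gfun (G : HType m k) (S : EuclideanSpace ℝ (Fin m) →L[ℝ] EuclideanSpace ℝ (Fin m))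
    (s : ℝ) (i : Fin m) : ContDiff ℝ ∞ (gfun G S s i) := by
  have h1 : ContDiff ℝ ∞ (fun x : Pt m k => x.1) := contDiff_fst
  have h2 : ContDiff ℝ ∞ (fun x : Pt m k => x.2) := contDiff_snd
  have h3 : ContDiff ℝ ∞ (fun x : Pt m k => S x.1) := S.contDiff.comp h1
  have h4 : ContDiff ℝ ∞ (fun x : Pt m k => Bc G i x.1) := (Bc G i).contDiff.comp h1
  exact (((contDiff_const.mul (h1.inner ℝ h1)).mul (h1.inner ℝ contDiff_const)).add
    (contDiff_const.mul (h3.inner ℝ contDiff_const))).add (contDiff_const.mul (h2.inner ℝ h4))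

lemma fderiv_gfun_X (G : HType m k) (S : EuclideanSpace ℝ (Fin m) →L[ℝ] EuclideanSpace ℝ (Fin m))
    (s : ℝ) (i : Fin m) (x : Pt m k) :
    fderiv ℝ (gfun G S s i) x (X G i x) = 8 * (x.1 i) ^ 2 + 4 * ‖x.1‖ ^ 2
      + 4 * s * ⟪S (bv i), bv i⟫ + 8 * ‖bl G x.1 (bv i)‖ ^ 2 := by
  have h1 : HasFDerivAt (fun x : Pt m k => x.1) (ContinuousLinearMap.fst ℝ _ _) x :=
    hasFDerivAt_fst
  have h2 : HasFDerivAt (fun x : Pt m k => x.2) (ContinuousLinearMap.snd ℝ _ _) x :=
    hasFDerivAt_snd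
  have h3 : HasFDerivAt (fun x : Pt m k => S x.1) (S.comp (ContinuousLinearMap.fst ℝ _ _)) x :=
    S.hasFDerivAt.comp x h1
  have h4 : HasFDerivAt (fun x : Pt m k => Bc G i x.1)
      ((Bc G i).comp (ContinuousLinearMap.fst ℝ _ _)) x :=
    (Bc G i).hasFDerivAt.comp x h1
  have hc : HasFDerivAt (fun _ : Pt m k => bv i) (0 : Pt m k →L[ℝ] EuclideanSpace ℝ (Fin m)) x :=
    hasFDerivAt_const _ _
  have h := ((((h1.inner ℝ h1).const_mul 4).mul (h1.inner ℝ hc)).add
    ((h3.inner ℝ hc).const_mul (4 * s))).add ((h2.inner ℝ h4).const_mul 16)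
  have h' : fderiv ℝ (gfun G S s i) x = _ := HasFDerivAt.fderiv h
  rw [h', X_eq]
  have hb' : ‖(bv i : EuclideanSpace ℝ (Fin m))‖ = 1 := by simp [bv]
  simp [fderivInnerCLM_apply, Bc_apply, inner_smul_left,
    bl_self G, hb', inner_bv_right, inner_bv_left]
  ring



lemma continuous_mul_aux {E : Type*} [TopologicalSpace E] {u g : E → ℝ} {U : Set E}
    (hU : IsOpen U) (hu : ContinuousOn u U) (hg : Continuous g) (hs : tsupport g ⊆ U) :
    Continuous fun x => u x * g x := by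
  rw [continuous_iff_continuousAt]
  intro x
  by_cases hx : x ∈ tsupport g
  · exact (hu.continuousAt (hU.mem_nhds (hs hx))).mul hg.continuousAt
  · have h0 : (fun x => u x * g x) =ᶠ[𝓝 x] fun _ => 0 := by
      have := (isClosed_tsupport g).isOpen_compl.mem_nhds hx
      filter_upwards [this] with y hy
      rw [image_eq_zero_of_notMem_tsupport hy, mul_zero]
    exact h0.continuousAt

lemma integrable_mul_aux {E : Type*} [TopologicalSpace E] [MeasurableSpace E]
    [OpensMeasurableSpace E] {μ : Measure E} [IsFiniteMeasureOnCompacts μ]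
    {u g : E → ℝ} {U : Set E}
    (hU : IsOpen U) (hu : ContinuousOn u U) (hg : Continuous g) (hc : HasCompactSupport g)
    (hs : tsupport g ⊆ U) : Integrable (fun x => u x * g x) μ :=
  (continuous_mul_aux hU hu hg hs).integrable_of_hasCompactSupport hc.mul_left

section
variable {E : Type*} [NormedAddCommGroup E] [NormedSpace ℝ E] [FiniteDimensional ℝ E]
  [MeasurableSpace E] [BorelSpace E] {μ : Measure E} [μ.IsAddHaarMeasure]

omit [FiniteDimensional ℝ E] [MeasurableSpace E] [BorelSpace E] in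
lemma tsupport_fderiv_apply_subset' {φ : E → ℝ} (w : E) :
    tsupport (fun x => fderiv ℝ φ x w) ⊆ tsupport φ := by
  refine closure_minimal ?_ (isClosed_tsupport _)
  intro x hx
  by_contra h
  apply hx
  have := (isClosed_tsupport φ).isOpen_compl.mem_nhds h
  have h0 : φ =ᶠ[𝓝 x] fun _ => 0 := by
    filter_upwards [this] with y hy
    exact image_eq_zero_of_notMem_tsupport hy
  simp [h0.fderiv_eq]

lemma ibp_const {u φ : E → ℝ} {U : Set E} (w : E) (hU : IsOpen U) (hu : ContDiffOn ℝ 1 u U)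
    (hφ : ContDiff ℝ 1 φ) (hc : HasCompactSupport φ) (hs : tsupport φ ⊆ U) :
    ∫ x, u x * fderiv ℝ φ x w ∂μ = - ∫ x, fderiv ℝ u x w * φ x ∂μ := by
  have hcw : HasCompactSupport (fun x => fderiv ℝ φ x w) :=
    hc.of_isClosed_subset (isClosed_tsupport _) (tsupport_fderiv_apply_subset' w)
  have hu' : ContinuousOn (fun x => fderiv ℝ u x w) U :=
    (hu.continuousOn_fderiv_of_isOpen hU le_rfl).clm_apply continuousOn_const
  have hφ' : Continuous (fun x => fderiv ℝ φ x w) :=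
    (hφ.continuous_fderiv one_ne_zero).clm_apply continuous_const
  apply integral_mul_fderiv_eq_neg_fderiv_mul_of_integrable
  · exact integrable_mul_aux hU hu' hφ.continuous hc hs
  · exact integrable_mul_aux hU hu.continuousOn hφ' hcw
      ((tsupport_fderiv_apply_subset' w).trans hs)
  · exact integrable_mul_aux hU hu.continuousOn hφ.continuous hc hs
  · intro x hx
    exact (hu.differentiableOn one_ne_zero).differentiableAt (hU.mem_nhds (hs hx))
  · intro x _
    exact hφ.differentiable one_ne_zero x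
end

instance instHaarPt : (volume : Measure (Pt m k)).IsAddHaarMeasure :=
  inferInstanceAs (((volume : Measure (EuclideanSpace ℝ (Fin m))).prod
    (volume : Measure (EuclideanSpace ℝ (Fin k)))).IsAddHaarMeasure)

lemma X_decomp (G : HType m k) (i : Fin m) (x : Pt m k) :
    X G i x = ((bv i, 0) : Pt m k)
      + ∑ l : Fin k, ((1 / 2 : ℝ) * (Bc G i x.1) l) • ((0, bv l) : Pt m k) := by
  rw [X_eq]
  have h : (∑ l : Fin k, ((1 / 2 : ℝ) * (Bc G i x.1) l) • ((0, bv l) : Pt m k))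
      = ((0 : EuclideanSpace ℝ (Fin m)), (1 / 2 : ℝ) • Bc G i x.1) := by
    rw [← sum_coord_smul (Bc G i x.1), Finset.smul_sum]
    simp only [sum_coord_smul]
    rw [Prod.ext_iff]
    constructor
    · simp [Prod.fst_sum]
    · simp [Prod.snd_sum, smul_smul]
  rw [h, Bc_apply]
  simp

lemma ibp_X (G : HType m k) (i : Fin m) {u φ : Pt m k → ℝ} {U : Set (Pt m k)}
    (hU : IsOpen U) (hu : ContDiffOn ℝ 1 u U)
    (hφ : ContDiff ℝ 1 φ) (hc : HasCompactSupport φ) (hs : tsupport φ ⊆ U) :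
    ∫ x, u x * fderiv ℝ φ x (X G i x) = - ∫ x, fderiv ℝ u x (X G i x) * φ x := by
  have hu' : ∀ w, ContinuousOn (fun x => fderiv ℝ u x w) U := fun w =>
    (hu.continuousOn_fderiv_of_isOpen hU le_rfl).clm_apply continuousOn_const
  have hφ' : ∀ w, Continuous (fun x => fderiv ℝ φ x w) := fun w =>
    (hφ.continuous_fderiv one_ne_zero).clm_apply continuous_const
  have hcw : ∀ w, HasCompactSupport (fun x => fderiv ℝ φ x w) := fun w =>
    hc.of_isClosed_subset (isClosed_tsupport _) (tsupport_fderiv_apply_subset' w)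
  -- coefficient functions
  let c : Fin k → Pt m k → ℝ := fun l x => (1 / 2 : ℝ) * (Bc G i x.1) l
  have hcd : ∀ l, ContDiff ℝ 1 (c l) := by
    intro l
    have h1 : ContDiff ℝ 1 (fun x : Pt m k => Bc G i x.1) := (Bc G i).contDiff.comp contDiff_fst
    have h2 : ContDiff ℝ 1 (fun x : Pt m k => ⟪bv l, Bc G i x.1⟫) :=
      contDiff_const.inner ℝ h1
    have h3 : c l = fun x : Pt m k => (1 / 2 : ℝ) * ⟪bv l, Bc G i x.1⟫ := by
      ext x; simp only [c, inner_bv_left]
    rw [h3]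
    exact contDiff_const.mul h2
  have hc0 : ∀ l x, fderiv ℝ (c l) x ((0, bv l) : Pt m k) = 0 := by
    intro l x
    have h3 : c l = (fun z : EuclideanSpace ℝ (Fin m) => (1 / 2 : ℝ) * (Bc G i z) l) ∘
        (fun x : Pt m k => x.1) := rfl
    have hd : Differentiable ℝ (fun z : EuclideanSpace ℝ (Fin m) => (1 / 2 : ℝ) * (Bc G i z) l) := by
      have h1 : Differentiable ℝ (fun z : EuclideanSpace ℝ (Fin m) => ⟪bv l, Bc G i z⟫) :=
        (differentiable_const _).inner ℝ (Bc G i).differentiable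
      simp only [inner_bv_left] at h1
      exact h1.const_mul _
    rw [h3, fderiv_comp x (hd _) differentiableAt_fst]
    simp [fderiv_fst]
  have hL : ∀ x, u x * fderiv ℝ φ x (X G i x) = u x * fderiv ℝ φ x ((bv i, 0) : Pt m k)
      + ∑ l, (u x * c l x) * fderiv ℝ φ x ((0, bv l) : Pt m k) := by
    intro x
    rw [X_decomp, map_add, map_sum, mul_add, Finset.mul_sum]
    congr 1
    refine Finset.sum_congr rfl fun l _ => ?_
    rw [map_smul, smul_eq_mul]
    simp only [c]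
    ring
  have hR : ∀ x, fderiv ℝ u x (X G i x) * φ x = fderiv ℝ u x ((bv i, 0) : Pt m k) * φ x
      + ∑ l, (c l x * fderiv ℝ u x ((0, bv l) : Pt m k)) * φ x := by
    intro x
    rw [X_decomp, map_add, map_sum, add_mul, Finset.sum_mul]
    congr 1
    refine Finset.sum_congr rfl fun l _ => ?_
    rw [map_smul, smul_eq_mul]
  have huc : ∀ l, ContDiffOn ℝ 1 (fun x => u x * c l x) U := fun l => hu.mul (hcd l).contDiffOn
  simp only [hL, hR]
  rw [integral_add, integral_finsetSum, integral_add, integral_finsetSum, neg_add,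
    ibp_const (μ := volume) _ hU hu hφ hc hs, ← Finset.sum_neg_distrib]
  · congr 1
    refine Finset.sum_congr rfl fun l _ => ?_
    rw [ibp_const (μ := volume) _ hU (huc l) hφ hc hs]
    congr 1
    apply integral_congr_ae
    filter_upwards with x
    by_cases hx : x ∈ tsupport φ
    · have hdu : DifferentiableAt ℝ u x :=
        (hu.differentiableOn one_ne_zero).differentiableAt (hU.mem_nhds (hs hx))
      have hdc : DifferentiableAt ℝ (c l) x := (hcd l).differentiable one_ne_zero x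
      rw [fderiv_fun_mul hdu hdc]
      simp [hc0]
    · simp [image_eq_zero_of_notMem_tsupport hx]
  · intro l _
    exact integrable_mul_aux hU ((hcd l).continuous.continuousOn.mul (hu' _)) hφ.continuous hc hs
  · exact integrable_mul_aux hU (hu' _) hφ.continuous hc hs
  · refine integrable_finsetSum _ fun l _ => ?_
    exact integrable_mul_aux hU ((hcd l).continuous.continuousOn.mul (hu' _)) hφ.continuous hc hs
  · intro l _
    exact integrable_mul_aux hU (huc l).continuousOn (hφ' _) (hcw _)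
      ((tsupport_fderiv_apply_subset' _).trans hs)
  · exact integrable_mul_aux hU hu.continuousOn (hφ' _) (hcw _)
      ((tsupport_fderiv_apply_subset' _).trans hs)
  · refine integrable_finsetSum _ fun l _ => ?_
    exact integrable_mul_aux hU (huc l).continuousOn (hφ' _) (hcw _)
      ((tsupport_fderiv_apply_subset' _).trans hs)



variable {G : HType m k} {S : EuclideanSpace ℝ (Fin m) →L[ℝ] EuclideanSpace ℝ (Fin m)}


lemma SplittingL.norm_eq (h : SplittingL G S) (z : EuclideanSpace ℝ (Fin m)) : ‖S z‖ = ‖z‖ := by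
  have : ‖S z‖ ^ 2 = ‖z‖ ^ 2 := by
    rw [← real_inner_self_eq_norm_sq, h.symm, h.sq, real_inner_self_eq_norm_sq]
  exact (sq_eq_sq₀ (norm_nonneg _) (norm_nonneg _)).1 this

lemma SplittingL.inner_J_S (h : SplittingL G S) (σ : EuclideanSpace ℝ (Fin k))
    (z : EuclideanSpace ℝ (Fin m)) : ⟪jl G σ z, S z⟫ = 0 := by
  have h1 : ⟪jl G σ z, S z⟫ = - ⟪jl G σ z, S z⟫ := by
    calc ⟪jl G σ z, S z⟫ = - ⟪z, jl G σ (S z)⟫ := J_skew' G σ z (S z)
      _ = - ⟪z, S (jl G σ z)⟫ := by rw [h.comm]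
      _ = - ⟪S z, jl G σ z⟫ := by rw [h.symm]
      _ = - ⟪jl G σ z, S z⟫ := by rw [real_inner_comm]
  linarith

lemma abs_inner_S_le (h : SplittingL G S) (z : EuclideanSpace ℝ (Fin m)) :
    |⟪S z, z⟫| ≤ ‖z‖ ^ 2 := by
  calc |⟪S z, z⟫| ≤ ‖S z‖ * ‖z‖ := abs_real_inner_le_norm _ _
    _ = ‖z‖ ^ 2 := by rw [h.norm_eq]; ring

/-- sum of squares of the components of `∇_H v` -/
lemma sum_gfun_sq (h : SplittingL G S) (s : ℝ) (x : Pt m k) :
    ∑ i, gfun G S s i x ^ 2 = 16 * ‖x.1‖ ^ 2 * vfun S s x := by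
  set w : EuclideanSpace ℝ (Fin m) :=
    (4 * ‖x.1‖ ^ 2) • x.1 + (4 * s) • S x.1 + (16 : ℝ) • jl G x.2 x.1 with hw
  have h1 : ∀ i, gfun G S s i x = w i := by
    intro i
    rw [gfun_eq, hw]
    simp
  simp only [h1]
  rw [← norm_sq_eq_sum, ← real_inner_self_eq_norm_sq, hw]
  have e1 : ⟪x.1, x.1⟫ = ‖x.1‖ ^ 2 := real_inner_self_eq_norm_sq _
  have e2 : ⟪S x.1, S x.1⟫ = ‖x.1‖ ^ 2 := by rw [real_inner_self_eq_norm_sq, h.norm_eq]
  have e3 : ⟪jl G x.2 x.1, jl G x.2 x.1⟫ = ‖x.2‖ ^ 2 * ‖x.1‖ ^ 2 := by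
    rw [real_inner_self_eq_norm_sq, norm_J_sq]
  have e4 : ⟪jl G x.2 x.1, x.1⟫ = 0 := J_skew G _ _
  have e4' : ⟪x.1, jl G x.2 x.1⟫ = 0 := by rw [real_inner_comm]; exact e4
  have e5 : ⟪jl G x.2 x.1, S x.1⟫ = 0 := h.inner_J_S _ _
  have e5' : ⟪S x.1, jl G x.2 x.1⟫ = 0 := by rw [real_inner_comm]; exact e5
  have e6 : ⟪x.1, S x.1⟫ = ⟪S x.1, x.1⟫ := real_inner_comm _ _
  simp only [inner_add_left, inner_add_right, inner_smul_left, inner_smul_right, e1, e2, e3, e4,
    e4', e5, e5', e6, vfun]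
  simp
  ring

/-- `Δ_H v = 4 (Q + 2) |z|^2` -/
lemma sum_fderiv_gfun (h : SplittingL G S) (s : ℝ) (x : Pt m k) :
    ∑ i, fderiv ℝ (gfun G S s i) x (X G i x) = 4 * (homDim m k + 2) * ‖x.1‖ ^ 2 := by
  have htr : ∑ i : Fin m, ⟪S (bv i), bv i⟫ = 0 := h.trace
  simp only [fderiv_gfun_X]
  simp only [Finset.sum_add_distrib, ← Finset.mul_sum, ← norm_sq_eq_sum, sum_bracket_sq, htr]
  simp [homDim]
  ring

lemma vfun_lower (h : SplittingL G S) {s : ℝ} (hs : 0 ≤ s) (x : Pt m k) :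
    (‖x.1‖ ^ 2 - s) ^ 2 + 16 * ‖x.2‖ ^ 2 ≤ vfun S s x := by
  have := neg_le_of_abs_le (abs_inner_S_le h x.1)
  unfold vfun
  nlinarith [mul_le_mul_of_nonneg_left this hs]

/-- the domain `Ω = {v < R^4}` -/
def Om (S : EuclideanSpace ℝ (Fin m) →L[ℝ] EuclideanSpace ℝ (Fin m)) (s R : ℝ) : Set (Pt m k) :=
  {x | vfun S s x < R ^ 4}

/-- the potential `f = (R^4 / v)^{(Q-2)/4}` -/
noncomputable def cap (S : EuclideanSpace ℝ (Fin m) →L[ℝ] EuclideanSpace ℝ (Fin m)) (s R : ℝ)
    (x : Pt m k) : ℝ :=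
  (R ^ 4 / vfun S s x) ^ ((homDim m k - 2) / 4)

lemma continuous_vfun (S : EuclideanSpace ℝ (Fin m) →L[ℝ] EuclideanSpace ℝ (Fin m)) (s : ℝ) :
    Continuous (vfun S s : Pt m k → ℝ) := (contDiff_vfun S s).continuous

lemma isOpen_Om (s R : ℝ) : IsOpen (Om S s R : Set (Pt m k)) :=
  isOpen_lt (continuous_vfun S s) continuous_const

lemma isConnected_Om {s R : ℝ} (hs : 0 < s) (hR : 0 < R)
    (hsR : s < R ^ 2) : IsConnected (Om S s R : Set (Pt m k)) := by
  have h0 : (0 : Pt m k) ∈ (Om S s R : Set (Pt m k)) := by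
    simp only [Om, vfun, mem_ofPred_eq]
    simp
    nlinarith
  have hstar : StarConvex ℝ (0 : Pt m k) (Om S s R : Set (Pt m k)) := by
    rw [starConvex_zero_iff]
    intro x hx a ha0 ha1
    simp only [Om, vfun, mem_ofPred_eq, Prod.smul_fst, Prod.smul_snd, norm_smul, map_smul,
      inner_smul_left, inner_smul_right] at hx ⊢
    simp only [Real.norm_eq_abs, abs_of_nonneg ha0, conj_trivial] at hx ⊢
    have hb0 : 0 ≤ a ^ 2 := sq_nonneg a
    have hb1 : a ^ 2 ≤ 1 := pow_le_one₀ ha0 ha1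
    have hs4 : s ^ 2 < R ^ 4 := by
      have : (0:ℝ) < R ^ 2 := by positivity
      nlinarith
    have key : ((a * ‖x.1‖) ^ 4 + 2 * s * (a * (a * ⟪S x.1, x.1⟫)) + s ^ 2
        + 16 * (a * ‖x.2‖) ^ 2)
        ≤ a ^ 2 * (‖x.1‖ ^ 4 + 2 * s * ⟪S x.1, x.1⟫ + s ^ 2 + 16 * ‖x.2‖ ^ 2)
          + (1 - a ^ 2) * s ^ 2 := by
      have h4 : (a * ‖x.1‖) ^ 4 ≤ a ^ 2 * ‖x.1‖ ^ 4 := by
        have : a ^ 4 ≤ a ^ 2 := by nlinarith
        calc (a * ‖x.1‖) ^ 4 = a ^ 4 * ‖x.1‖ ^ 4 := by ring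
          _ ≤ a ^ 2 * ‖x.1‖ ^ 4 := mul_le_mul_of_nonneg_right this (by positivity)
      nlinarith
    refine lt_of_le_of_lt key ?_
    rcases eq_or_lt_of_le hb0 with hb | hb
    · rw [← hb]; simpa using hs4
    · have h5 : a ^ 2 * (‖x.1‖ ^ 4 + 2 * s * ⟪S x.1, x.1⟫ + s ^ 2 + 16 * ‖x.2‖ ^ 2)
          < a ^ 2 * R ^ 4 := mul_lt_mul_of_pos_left hx hb
      have h6 : (1 - a ^ 2) * s ^ 2 ≤ (1 - a ^ 2) * R ^ 4 :=
        mul_le_mul_of_nonneg_left hs4.le (by linarith)
      linarith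
  exact (hstar.isPathConnected h0).isConnected

lemma isBounded_Om (h : SplittingL G S) {s R : ℝ} (hs : 0 < s) :
    Bornology.IsBounded (Om S s R : Set (Pt m k)) := by
  rw [isBounded_iff_forall_norm_le]
  refine ⟨R ^ 4 + s + 1, fun x hx => ?_⟩
  have h1 := vfun_lower h hs.le x
  have h2 : vfun S s x < R ^ 4 := hx
  have h3 : (‖x.1‖ ^ 2 - s) ^ 2 + 16 * ‖x.2‖ ^ 2 < R ^ 4 := lt_of_le_of_lt h1 h2
  rw [Prod.norm_def]
  apply max_le
  · nlinarith [sq_nonneg (‖x.1‖ ^ 2 - s - 1 / 2), sq_nonneg (‖x.1‖ - 1 / 2), sq_nonneg ‖x.2‖]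
  · nlinarith [sq_nonneg (‖x.2‖ - 1 / 2), sq_nonneg (‖x.1‖ ^ 2 - s), sq_nonneg ‖x.2‖]

lemma tendsto_vfun (h : SplittingL G S) {s : ℝ} (hs : 0 < s) :
    Tendsto (vfun S s : Pt m k → ℝ) (cocompact (Pt m k)) atTop := by
  have h1 : Tendsto (fun x : Pt m k => ‖x‖ - (s + 1)) (cocompact (Pt m k)) atTop :=
    tendsto_atTop_add_const_right _ _ (tendsto_norm_cocompact_atTop (E := Pt m k))
  refine tendsto_atTop_mono (fun x => ?_) h1
  have h2 := vfun_lower h hs.le x
  refine le_trans ?_ h2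
  rw [Prod.norm_def, sub_le_iff_le_add]
  apply max_le
  · nlinarith [sq_nonneg (‖x.1‖ ^ 2 - s - 1 / 2), sq_nonneg (‖x.1‖ - 1 / 2), sq_nonneg ‖x.2‖]
  · nlinarith [sq_nonneg (‖x.2‖ - 1 / 2), sq_nonneg (‖x.1‖ ^ 2 - s), sq_nonneg ‖x.2‖]



lemma closure_compl_subset {s R : ℝ} {x : Pt m k} (hx : x ∈ (closure (Om S s R : Set (Pt m k)))ᶜ) :
    R ^ 4 ≤ vfun S s x := by
  by_contra hc
  exact hx (subset_closure (not_le.1 hc))

/-- derivative of `t ↦ (c / t)^γ` -/
lemma hasDerivAt_h {c γ t : ℝ} (hc : 0 < c) (ht : 0 < t) :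
    HasDerivAt (fun t : ℝ => (c / t) ^ γ) (-γ * (c / t) ^ γ / t) t := by
  have h1 : HasDerivAt (fun t : ℝ => c / t) (-c / t ^ 2) t := by
    have := (hasDerivAt_inv ht.ne').const_mul c
    simpa [div_eq_mul_inv, mul_comm] using this
  have h2 := h1.rpow_const (p := γ) (Or.inl (div_pos hc ht).ne')
  convert h2 using 1
  rw [Real.rpow_sub_one (div_pos hc ht).ne']
  field_simp

/-- derivative of `t ↦ -γ (c / t)^γ / t` -/
lemma hasDerivAt_h1 {c γ t : ℝ} (hc : 0 < c) (ht : 0 < t) :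
    HasDerivAt (fun t : ℝ => -γ * (c / t) ^ γ / t) (γ * (γ + 1) * (c / t) ^ γ / t ^ 2) t := by
  have h1 := ((hasDerivAt_h (γ := γ) hc ht).const_mul (-γ)).fun_div (hasDerivAt_id' t) ht.ne'
  refine h1.congr_deriv ?_
  field_simp
  ring

/-- the coefficient function `h1 (v x)` -/
noncomputable def coef (S : EuclideanSpace ℝ (Fin m) →L[ℝ] EuclideanSpace ℝ (Fin m)) (s R : ℝ)
    (x : Pt m k) : ℝ :=
  -((homDim m k - 2) / 4) * (R ^ 4 / vfun S s x) ^ ((homDim m k - 2) / 4) / vfun S s x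

lemma contDiffAt_cap {s R : ℝ} (hR : 0 < R) {x : Pt m k} (hx : 0 < vfun S s x) :
    ContDiffAt ℝ ∞ (cap S s R : Pt m k → ℝ) x := by
  unfold cap
  have hv := (contDiff_vfun S s : ContDiff ℝ ∞ (vfun S s : Pt m k → ℝ)).contDiffAt (x := x)
  have h1 : ContDiffAt ℝ ∞ (fun x : Pt m k => R ^ 4 / vfun S s x) x :=
    contDiffAt_const.div hv hx.ne'
  exact h1.rpow_const_of_ne (div_pos (by positivity) hx).ne'

lemma contDiffAt_coef {s R : ℝ} (hR : 0 < R) {x : Pt m k} (hx : 0 < vfun S s x) :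
    ContDiffAt ℝ ∞ (coef S s R : Pt m k → ℝ) x := by
  have hv := (contDiff_vfun S s : ContDiff ℝ ∞ (vfun S s : Pt m k → ℝ)).contDiffAt (x := x)
  have h1 := contDiffAt_cap (S := S) hR hx
  unfold coef
  exact (contDiffAt_const.mul h1).div hv hx.ne'

lemma fderiv_cap {s R : ℝ} (hR : 0 < R) {x : Pt m k} (hx : 0 < vfun S s x) :
    fderiv ℝ (cap S s R : Pt m k → ℝ) x = coef S s R x • fderiv ℝ (vfun S s) x := by
  have hv : HasFDerivAt (vfun S s : Pt m k → ℝ) (fderiv ℝ (vfun S s) x) x :=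
    ((contDiff_vfun S s).differentiable (by simp) x).hasFDerivAt
  have h := (hasDerivAt_h (γ := (homDim m k - 2) / 4) (c := R ^ 4) (by positivity) hx).comp_hasFDerivAt x hv
  exact h.fderiv

lemma fderiv_coef {s R : ℝ} (hR : 0 < R) {x : Pt m k} (hx : 0 < vfun S s x) :
    fderiv ℝ (coef S s R : Pt m k → ℝ) x =
      ((homDim m k - 2) / 4 * ((homDim m k - 2) / 4 + 1) * cap S s R x / vfun S s x ^ 2) •
        fderiv ℝ (vfun S s) x := by
  have hv : HasFDerivAt (vfun S s : Pt m k → ℝ) (fderiv ℝ (vfun S s) x) x :=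
    ((contDiff_vfun S s).differentiable (by simp) x).hasFDerivAt
  have h := (hasDerivAt_h1 (γ := (homDim m k - 2) / 4) (c := R ^ 4) (by positivity) hx).comp_hasFDerivAt x hv
  exact h.fderiv

/-- `X_i f` on the set where `v > 0`. -/
lemma fderiv_cap_X (h : SplittingL G S) {s R : ℝ} (hR : 0 < R) {x : Pt m k}
    (hx : 0 < vfun S s x) (i : Fin m) :
    fderiv ℝ (cap S s R : Pt m k → ℝ) x (X G i x) = coef S s R x * gfun G S s i x := by
  rw [fderiv_cap hR hx, smul_apply, fderiv_vfun_X G S s h.symm, smul_eq_mul]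

lemma sum_second (h : SplittingL G S) {s R : ℝ} (hR : 0 < R) {x : Pt m k}
    (hx : 0 < vfun S s x) :
    ∑ i, fderiv ℝ (fun y => coef S s R y * gfun G S s i y) x (X G i x) = 0 := by
  have h1 : ∀ i, fderiv ℝ (fun y => coef S s R y * gfun G S s i y) x (X G i x)
      = ((homDim m k - 2) / 4 * ((homDim m k - 2) / 4 + 1) * cap S s R x / vfun S s x ^ 2)
          * gfun G S s i x ^ 2
        + coef S s R x * fderiv ℝ (gfun G S s i) x (X G i x) := by
    intro i
    have hd1 : DifferentiableAt ℝ (coef S s R : Pt m k → ℝ) x :=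
      (contDiffAt_coef hR hx).differentiableAt (by simp)
    have hd2 : DifferentiableAt ℝ (gfun G S s i) x :=
      (contDiff_gfun G S s i).differentiable (by simp) x
    rw [fderiv_fun_mul hd1 hd2, add_apply, smul_apply,
      smul_apply, fderiv_coef hR hx, smul_apply,
      fderiv_vfun_X G S s h.symm]
    simp only [smul_eq_mul]
    ring
  simp only [h1]
  rw [Finset.sum_add_distrib, ← Finset.mul_sum, ← Finset.mul_sum, sum_gfun_sq h,
    sum_fderiv_gfun h]
  have : coef S s R x = -((homDim m k - 2) / 4) * cap S s R x / vfun S s x := rfl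
  rw [this]
  field_simp
  ring

lemma hgrad_cap (h : SplittingL G S) {s R : ℝ} (hR : 0 < R) {x : Pt m k}
    (hx : 0 < vfun S s x) (i : Fin m) :
    hgrad G (cap S s R) x i = coef S s R x * gfun G S s i x := by
  simp only [hgrad]
  exact fderiv_cap_X h hR hx i

lemma cap_pos {s R : ℝ} (hR : 0 < R) {x : Pt m k} (hx : 0 < vfun S s x) :
    0 < cap S s R x := Real.rpow_pos_of_pos (div_pos (by positivity) hx) _

lemma norm_hgrad_sq (h : SplittingL G S) {s R : ℝ} (hR : 0 < R) {x : Pt m k}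
    (hx : 0 < vfun S s x) :
    ‖hgrad G (cap S s R) x‖ ^ 2 = (homDim m k - 2) ^ 2 * ‖x.1‖ ^ 2 * cap S s R x ^ 2
      / vfun S s x := by
  rw [norm_sq_eq_sum]
  simp only [hgrad_cap h hR hx, mul_pow]
  rw [← Finset.mul_sum, sum_gfun_sq h]
  have : coef S s R x = -((homDim m k - 2) / 4) * cap S s R x / vfun S s x := rfl
  rw [this]
  field_simp
  ring

lemma homDim_gt (hm : 0 < m) (hk : 0 < k) : 2 < homDim m k := by
  have h1 : (1 : ℝ) ≤ m := by exact_mod_cast hm
  have h2 : (1 : ℝ) ≤ k := by exact_mod_cast hk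
  unfold homDim
  linarith

lemma P_cap (h : SplittingL G S) (hm : 0 < m) (hk : 0 < k) {s R : ℝ} (hR : 0 < R) {x : Pt m k}
    (hx : 0 < vfun S s x) :
    P G 2 (cap S s R) x = cst m k 2 R ^ (2 : ℝ) * ‖x.1‖ ^ (2 : ℝ) := by
  have hQ := homDim_gt hm hk
  have hQ' : homDim m k - 2 ≠ 0 := by linarith
  unfold P cst
  have hf := cap_pos (S := S) (s := s) hR hx
  rw [Real.rpow_two, norm_hgrad_sq h hR hx, Real.rpow_two, Real.rpow_two]
  have e1 : 2 * (homDim m k + 2 - 2) / (homDim m k - 2) = 2 + 4 / (homDim m k - 2) := by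
    field_simp; ring
  have e2 : cap S s R x ^ (4 / (homDim m k - 2)) = R ^ 4 / vfun S s x := by
    unfold cap
    rw [← Real.rpow_mul (div_pos (by positivity) hx).le]
    have : (homDim m k - 2) / 4 * (4 / (homDim m k - 2)) = 1 := by field_simp
    rw [this, Real.rpow_one]
  rw [e1, Real.rpow_add hf, e2, Real.rpow_two]
  field_simp
  ring



lemma isPHarmonicOn_cap (h : SplittingL G S) {s R : ℝ} (hR : 0 < R) :
    IsWeaklyPHarmonicOn G 2 (closure (Om S s R : Set (Pt m k)))ᶜ (cap S s R) := by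
  have hR4 : 0 < R ^ 4 := by positivity
  set U : Set (Pt m k) := (closure (Om S s R : Set (Pt m k)))ᶜ with hUdef
  have hU : IsOpen U := isClosed_closure.isOpen_compl
  have hpos : ∀ x ∈ U, 0 < vfun S s x := fun x hx => hR4.trans_le (closure_compl_subset hx)
  rintro φ ⟨hφ, hc, hs⟩
  have hu : ∀ i, ContDiffOn ℝ 1 (fun y => coef S s R y * gfun G S s i y) U := by
    intro i x hx
    exact (((contDiffAt_coef hR (hpos x hx)).mul
      (contDiff_gfun G S s i).contDiffAt).of_le (by simp)).contDiffWithinAt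
  have hφ1 : ContDiff ℝ 1 φ := hφ.of_le (by simp)
  -- rewrite the integrand
  have h1 : ∀ x ∈ U, ‖hgrad G (cap S s R) x‖ ^ ((2 : ℝ) - 2) *
      ⟪hgrad G (cap S s R) x, hgrad G φ x⟫
      = ∑ i, (coef S s R x * gfun G S s i x) * fderiv ℝ φ x (X G i x) := by
    intro x hx
    rw [sub_self, Real.rpow_zero, one_mul, PiLp.inner_apply]
    refine Finset.sum_congr rfl fun i _ => ?_
    rw [hgrad_cap h hR (hpos x hx)]
    simp [hgrad, dirDeriv, mul_comm]
  rw [setIntegral_congr_fun hU.measurableSet h1]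
  have h2 : ∀ x, x ∉ U → ∑ i, (coef S s R x * gfun G S s i x) * fderiv ℝ φ x (X G i x) = 0 := by
    intro x hx
    have hx' : x ∉ tsupport φ := fun hh => hx (hs hh)
    have : φ =ᶠ[𝓝 x] fun _ => 0 := by
      filter_upwards [(isClosed_tsupport φ).isOpen_compl.mem_nhds hx'] with y hy
      exact image_eq_zero_of_notMem_tsupport hy
    simp [this.fderiv_eq]
  rw [setIntegral_eq_integral_of_forall_compl_eq_zero h2]
  have hφX : ∀ i, Continuous (fun x => fderiv ℝ φ x (X G i x)) := by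
    intro i
    have hXc : Continuous (X G i) := by
      have : X G i = fun x : Pt m k => ((bv i, (1 / 2 : ℝ) • Bc G i x.1) : Pt m k) := by
        ext1 x; rw [X_eq, Bc_apply]
      rw [this]
      exact continuous_const.prodMk (by fun_prop)
    exact (hφ1.continuous_fderiv one_ne_zero).clm_apply hXc
  have hsX : ∀ i, tsupport (fun x => fderiv ℝ φ x (X G i x)) ⊆ tsupport φ := by
    intro i
    refine closure_minimal ?_ (isClosed_tsupport _)
    intro x hx
    by_contra hx'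
    apply hx
    have : φ =ᶠ[𝓝 x] fun _ => 0 := by
      filter_upwards [(isClosed_tsupport φ).isOpen_compl.mem_nhds hx'] with y hy
      exact image_eq_zero_of_notMem_tsupport hy
    simp [this.fderiv_eq]
  rw [integral_finsetSum]
  · have h3 : ∀ i ∈ Finset.univ, ∫ x, (coef S s R x * gfun G S s i x) * fderiv ℝ φ x (X G i x)
        = - ∫ x, fderiv ℝ (fun y => coef S s R y * gfun G S s i y) x (X G i x) * φ x :=
      fun i _ => ibp_X G i hU (hu i) hφ1 hc hs
    rw [Finset.sum_congr rfl h3, Finset.sum_neg_distrib, ← integral_finsetSum]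
    · rw [neg_eq_zero]
      apply integral_eq_zero_of_ae
      filter_upwards with x
      by_cases hx : x ∈ tsupport φ
      · rw [← Finset.sum_mul, sum_second h hR (hpos x (hs hx)), zero_mul]
        rfl
      · simp [image_eq_zero_of_notMem_tsupport hx]
    · intro i _
      have hXc : Continuous (X G i) := by
        have : X G i = fun x : Pt m k => ((bv i, (1 / 2 : ℝ) • Bc G i x.1) : Pt m k) := by
          ext1 x; rw [X_eq, Bc_apply]
        rw [this]
        exact continuous_const.prodMk (by fun_prop)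
      exact integrable_mul_aux hU
        (((hu i).continuousOn_fderiv_of_isOpen hU le_rfl).clm_apply hXc.continuousOn)
        hφ.continuous hc hs
  · intro i _
    exact integrable_mul_aux hU (hu i).continuousOn (hφX i)
      (hc.of_isClosed_subset (isClosed_tsupport _) (hsX i)) ((hsX i).trans hs)

lemma isCapacitaryPotential_cap (h : SplittingL G S) (hm : 0 < m) (hk : 0 < k) {s R : ℝ}
    (hs : 0 < s) (hR : 0 < R) :
    IsCapacitaryPotential G 2 (Om S s R : Set (Pt m k)) (cap S s R) := by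
  have hR4 : 0 < R ^ 4 := by positivity
  refine ⟨?_, ?_, isPHarmonicOn_cap h hR, ?_, ?_⟩
  · intro x hx
    have hx' : R ^ 4 ≤ vfun S s x := not_lt.1 hx
    exact (contDiffAt_cap hR (hR4.trans_le hx')).continuousAt.continuousWithinAt
  · intro x hx
    exact (contDiffAt_cap hR (hR4.trans_le (closure_compl_subset hx))).contDiffWithinAt
  · intro x hx
    rw [(isOpen_Om s R).frontier_eq] at hx
    have h1 : R ^ 4 ≤ vfun S s x := not_lt.1 hx.2
    have h2 : vfun S s x ≤ R ^ 4 :=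
      closure_lt_subset_le (continuous_vfun S s) continuous_const hx.1
    have h3 : vfun S s x = R ^ 4 := le_antisymm h2 h1
    unfold cap
    rw [h3, div_self hR4.ne', Real.one_rpow]
  · have h1 : Tendsto (fun x : Pt m k => R ^ 4 / vfun S s x) (cocompact (Pt m k)) (𝓝 0) :=
      (tendsto_vfun h hs).const_div_atTop _
    have hγ : 0 < (homDim m k - 2) / 4 := by
      have := homDim_gt hm hk; linarith
    have h2 : Tendsto (fun t : ℝ => t ^ ((homDim m k - 2) / 4)) (𝓝 0) (𝓝 0) := by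
      have := (Real.continuous_rpow_const hγ.le).tendsto 0
      rwa [Real.zero_rpow hγ.ne'] at this
    exact h2.comp h1

lemma exists_eigen (h : SplittingL G S) (hm : 0 < m) :
    (∃ z : EuclideanSpace ℝ (Fin m), ‖z‖ = 1 ∧ S z = z) ∧
      (∃ z : EuclideanSpace ℝ (Fin m), ‖z‖ = 1 ∧ S z = -z) := by
  have norm_it : ∀ (w : EuclideanSpace ℝ (Fin m)), w ≠ 0 → ‖(‖w‖⁻¹ • w)‖ = 1 := by
    intro w hw
    rw [norm_smul, norm_inv, norm_norm, inv_mul_cancel₀ (norm_ne_zero_iff.2 hw)]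
  constructor
  · by_contra hcon
    have h1 : ∀ w, S w = -w := by
      intro w
      by_contra hw
      have hne : w + S w ≠ 0 := by
        intro h0; apply hw
        exact eq_neg_of_add_eq_zero_right h0
      apply hcon
      refine ⟨‖w + S w‖⁻¹ • (w + S w), norm_it _ hne, ?_⟩
      rw [map_smul, map_add, h.sq, add_comm (S w) w]
    have h2 := h.trace
    simp only [h1, inner_neg_left] at h2
    simp at h2
    omega
  · by_contra hcon
    have h1 : ∀ w, S w = w := by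
      intro w
      by_contra hw
      have hne : w - S w ≠ 0 := by
        intro h0; apply hw
        exact (sub_eq_zero.1 h0).symm
      apply hcon
      refine ⟨‖w - S w‖⁻¹ • (w - S w), norm_it _ hne, ?_⟩
      rw [map_smul, map_sub, h.sq, ← smul_neg, neg_sub]
    have h2 := h.trace
    simp only [h1] at h2
    simp at h2
    omega

lemma not_gaugeBall (h : SplittingL G S) (hm : 0 < m) {s R : ℝ} (hs : 0 < s) (hR : 0 < R)
    (hsR : s < R ^ 2) :
    ¬ ∃ (R' : ℝ) (σ₀ : EuclideanSpace ℝ (Fin k)), (Om S s R : Set (Pt m k)) = gaugeBall m k R' σ₀ := by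
  rintro ⟨R', σ₀, heq⟩
  obtain ⟨⟨z₁, hz₁, hS₁⟩, ⟨z₂, hz₂, hS₂⟩⟩ := exists_eigen h hm
  have h1 : ((R • z₂, 0) : Pt m k) ∈ (Om S s R : Set (Pt m k)) := by
    simp only [Om, vfun, mem_ofPred_eq, map_smul, hS₂, inner_smul_left, inner_smul_right,
      norm_smul, hz₂, inner_neg_left, real_inner_self_eq_norm_sq, norm_zero, Real.norm_eq_abs,
      abs_of_pos hR, conj_trivial]
    nlinarith
  have h2 : ((R • z₁, 0) : Pt m k) ∉ (Om S s R : Set (Pt m k)) := by
    simp only [Om, vfun, mem_ofPred_eq, map_smul, hS₁, inner_smul_left, inner_smul_right,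
      norm_smul, hz₁, real_inner_self_eq_norm_sq, norm_zero, Real.norm_eq_abs,
      abs_of_pos hR, conj_trivial, not_lt]
    have : 0 < R ^ 2 := by positivity
    nlinarith [mul_pos hs this]
  rw [heq] at h1 h2
  apply h2
  simp only [gaugeBall, mem_ofPred_eq, norm_smul, hz₁, hz₂] at h1 ⊢
  exact h1

lemma hasSmoothBoundary_Om (h : SplittingL G S) {s R : ℝ} (hs : 0 < s) (hR : 0 < R)
    (hsR : s < R ^ 2) : HasSmoothBoundary (Om S s R : Set (Pt m k)) := by
  refine ⟨fun x => vfun S s x - R ^ 4, (contDiff_vfun S s).sub contDiff_const, ?_, ?_⟩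
  · ext x
    simp only [Om, mem_ofPred_eq, sub_neg]
  · intro x hx
    by_contra hcon
    push Not at hcon
    have hd : ∀ y, fderiv ℝ (vfun S s) x y = 0 := by
      intro y
      have := hcon y
      rw [dirDeriv, fderiv_sub_const] at this
      exact this
    have hv : vfun S s x = R ^ 4 := sub_eq_zero.1 hx
    have hR4 : 0 < R ^ 4 := by positivity
    by_cases hz : x.1 = 0
    · have h1 : fderiv ℝ (vfun S s) x ((0, x.2) : Pt m k) = 0 := hd _
      rw [fderiv_vfun S s h.symm] at h1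
      simp only [inner_zero_right, mul_zero, zero_add, real_inner_self_eq_norm_sq] at h1
      have h2 : ‖x.2‖ ^ 2 = 0 := by linarith
      rw [vfun, hz, h2] at hv
      simp at hv
      nlinarith
    · have h1 : ∀ i, gfun G S s i x = 0 := by
        intro i
        rw [← fderiv_vfun_X G S s h.symm, hd]
      have h2 := sum_gfun_sq h s x
      simp only [h1] at h2
      rw [hv] at h2
      have h3 : 0 < 16 * ‖x.1‖ ^ 2 * R ^ 4 := by
        have : 0 < ‖x.1‖ := norm_pos_iff.2 hz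
        positivity
      rw [← h2] at h3
      simp at h3

theorem failsFor_of_splitting (h : SplittingL G S) (hm : 0 < m) (hk : 0 < k) {R : ℝ}
    (hR : 0 < R) : FailsFor G 2 R := by
  have hs : 0 < R ^ 2 / 2 := by positivity
  have hsR : R ^ 2 / 2 < R ^ 2 := by
    have : 0 < R ^ 2 := by positivity
    linarith
  refine ⟨Om S (R ^ 2 / 2) R, cap S (R ^ 2 / 2) R, isOpen_Om _ R, isConnected_Om hs hR hsR,
    isBounded_Om h hs, hasSmoothBoundary_Om h hs hR hsR,
    isCapacitaryPotential_cap h hm hk hs hR, ?_, not_gaugeBall h hm hs hR hsR⟩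
  intro x hx
  have hR4 : 0 < R ^ 4 := by positivity
  exact P_cap h hm hk hR (hR4.trans_le (closure_compl_subset hx))

/-- The Heisenberg group `ℍ²`: horizontal layer `ℝ⁴ = ℂ²`, one-dimensional centre. -/
noncomputable def heis2 : HType 4 1 where
  bracket z w := EuclideanSpace.single 0 (z 0 * w 1 - z 1 * w 0 + (z 2 * w 3 - z 3 * w 2))
  bracket_add := by intro a b c; ext i; fin_cases i; simp; ring
  bracket_smul := by intro a b c; ext i; fin_cases i; simp; ring
  bracket_self := by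
    intro z; ext i; fin_cases i; simp; ring
  J σ z := !₂[-(σ 0 * z 1), σ 0 * z 0, -(σ 0 * z 3), σ 0 * z 2]
  inner_J := by
    intro σ z w
    simp [PiLp.inner_apply, Fin.sum_univ_four]
    ring
  J_sq := by
    intro σ z
    ext i
    fin_cases i <;> simp [EuclideanSpace.real_norm_sq_eq] <;> ring
  span_bracket := by
    intro w
    have h : w = (w 0) • (EuclideanSpace.single (0 : Fin 1) (1 : ℝ)) := by
      ext i; fin_cases i; simp
    rw [h]
    refine Submodule.smul_mem _ _ (Submodule.subset_span ?_)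
    refine ⟨EuclideanSpace.single 0 1, EuclideanSpace.single 1 1, ?_⟩
    simp

/-- The involution `(ζ₁, ζ₂) ↦ (ζ₁, -ζ₂)` of `ℂ² = ℝ⁴`. -/
noncomputable def S2 (z : EuclideanSpace ℝ (Fin 4)) : EuclideanSpace ℝ (Fin 4) :=
  !₂[z 0, z 1, -z 2, -z 3]

lemma splitting_heis2 : Splitting heis2 S2 where
  symm := by
    intro z w
    simp [S2, PiLp.inner_apply, Fin.sum_univ_four]
  sq := by
    intro z; ext i; fin_cases i <;> simp [S2]
  comm := by
    intro σ z; ext i; fin_cases i <;> simp [S2, heis2]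
  trace := by
    simp [S2, Fin.sum_univ_four]

/-- The assertion of the problem is false. It fails for `p = 2` and every `R > 0` in the Heisenberg
group `ℍ²` (`m = 4`, `k = 1`), and more generally in every group of Heisenberg type whose
horizontal layer carries a traceless symmetric involution commuting with all `J σ`. -/
theorem result :
    (∃ G : HType 4 1, ∀ R : ℝ, 0 < R → FailsFor G 2 R) ∧
    ∀ (m k : ℕ) (G : HType m k), 0 < m → 0 < k → (∃ S, Splitting G S) →
      ∀ R : ℝ, 0 < R → FailsFor G 2 R := by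
  have key : ∀ (m k : ℕ) (G : HType m k), 0 < m → 0 < k → (∃ S, Splitting G S) →
      ∀ R : ℝ, 0 < R → FailsFor G 2 R := by
    rintro m k G hm hk ⟨S, hS⟩ R hR
    obtain ⟨T, hT⟩ := hS.toL
    exact failsFor_of_splitting hT hm hk hR
  exact ⟨⟨heis2, key 4 1 heis2 (by norm_num) (by norm_num) ⟨S2, splitting_heis2⟩⟩, key⟩

end Pool.Agent.Results.MP_1048c2_an.Disproof
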